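import Pool.Agent.Helper15.RK.GoalsF

/-! # RK packet CVK: the curvature inequality in frames -/

open Complex Metric Set Filter Topology MeasureTheory
open scoped ContDiff ComplexConjugate ComplexOrder Manifold Matrix

namespace Pool.Agent.Helper94.RK

open Pool.Agent.Helper95.Lin Pool.Agent.Helper16.Abund Pool.Agent.Helper92.Orb
  Pool.Agent.Helper10.SP Pool.Agent.Helper95.RK Pool.Agent.Helper15.RK

section tk

variable {n : ℕ} {W : Set (Cn n)}

theorem cdc (hW : IsOpen W) {f g : Cn n → ℂ} (h : ∀ y ∈ W, f y = g y) (l : Fin n) {x : Cn n}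
    (hx : x ∈ W) : cd l f x = cd l g x ∧ cdb l f x = cdb l g x := by
  have he : f =ᶠ[𝓝 x] g := by
    filter_upwards [hW.mem_nhds hx] with y hy using h y hy
  have := he.fderiv_eq (𝕜 := ℝ)
  constructor
  · simp only [cd, this]
  · simp only [cdb, this]

theorem cdk (c : ℂ) (l : Fin n) (x : Cn n) :
    cd l (fun _ => c) x = 0 ∧ cdb l (fun _ => c) x = 0 := by
  constructor
  · simp [cd]
  · simp [cdb]

theorem Dvc (hW : IsOpen W) (V : Cn n → Cn n) {f g : Cn n → ℂ} (h : ∀ y ∈ W, f y = g y) {x : Cn n}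
    (hx : x ∈ W) : Dv V f x = Dv V g x ∧ Dvb V f x = Dvb V g x := by
  constructor
  · exact Finset.sum_congr rfl fun j _ => by rw [(cdc hW h j hx).1]
  · exact Finset.sum_congr rfl fun j _ => by rw [(cdc hW h j hx).2]

theorem Dvk (V : Cn n → Cn n) (c : ℂ) (x : Cn n) :
    Dv V (fun _ => c) x = 0 ∧ Dvb V (fun _ => c) x = 0 := by
  constructor
  · exact Finset.sum_eq_zero fun j _ => by rw [(cdk c j x).1, mul_zero]
  · exact Finset.sum_eq_zero fun j _ => by rw [(cdk c j x).2, mul_zero]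

theorem cds (hw : S_WIRT) (hW : IsOpen W) {ι : Type} (s : Finset ι) (f : ι → Cn n → ℂ)
    (hf : ∀ j ∈ s, ContDiffOn ℝ ∞ (f j) W) (l : Fin n) {x : Cn n} (hx : x ∈ W) :
    cd l (fun y => ∑ j ∈ s, f j y) x = ∑ j ∈ s, cd l (f j) x ∧
    cdb l (fun y => ∑ j ∈ s, f j y) x = ∑ j ∈ s, cdb l (f j) x := by
  classical
  induction s using Finset.induction_on with
  | empty => simpa using cdk 0 l x
  | insert a s ha ih =>
    have hs : ∀ j ∈ s, ContDiffOn ℝ ∞ (f j) W := fun j hj => hf j (Finset.mem_insert_of_mem hj)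
    have h1 := (hw W hW (f a) (fun y => ∑ j ∈ s, f j y) (hf a (Finset.mem_insert_self a s))
      (ContDiffOn.sum fun j hj => hs j hj)).2.1 l x hx
    have h2 := ih hs
    simp only [Finset.sum_insert ha]
    rw [h1.1, h1.2, h2.1, h2.2]
    exact ⟨rfl, rfl⟩

theorem Dvs (hw : S_WIRT) (hW : IsOpen W) {m : ℕ} (V : Cn n → Cn n) (f : Fin m → Cn n → ℂ)
    (hf : ∀ j, ContDiffOn ℝ ∞ (f j) W) {x : Cn n} (hx : x ∈ W) :
    Dv V (fun y => ∑ j, f j y) x = ∑ j, Dv V (f j) x ∧
    Dvb V (fun y => ∑ j, f j y) x = ∑ j, Dvb V (f j) x := by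
  unfold Dv Dvb
  constructor
  · rw [Finset.sum_comm]
    refine Finset.sum_congr rfl fun l _ => ?_
    rw [(cds hw hW Finset.univ f (fun j _ => hf j) l hx).1, Finset.mul_sum]
  · rw [Finset.sum_comm]
    refine Finset.sum_congr rfl fun l _ => ?_
    rw [(cds hw hW Finset.univ f (fun j _ => hf j) l hx).2, Finset.mul_sum]

theorem Dvm (hw : S_WIRT) (hW : IsOpen W) (V : Cn n → Cn n) {f g : Cn n → ℂ}
    (hf : ContDiffOn ℝ ∞ f W) (hg : ContDiffOn ℝ ∞ g W) {x : Cn n} (hx : x ∈ W) :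
    Dv V (fun y => f y * g y) x = f x * Dv V g x + g x * Dv V f x ∧
    Dvb V (fun y => f y * g y) x = f x * Dvb V g x + g x * Dvb V f x := by
  unfold Dv Dvb
  have h := fun l => (hw W hW f g hf hg).2.2.1 l x hx
  constructor
  · rw [Finset.mul_sum, Finset.mul_sum, ← Finset.sum_add_distrib]
    refine Finset.sum_congr rfl fun l _ => ?_
    rw [(h l).1]; ring
  · rw [Finset.mul_sum, Finset.mul_sum, ← Finset.sum_add_distrib]
    refine Finset.sum_congr rfl fun l _ => ?_
    rw [(h l).2]; ring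

theorem Dvcm (hw : S_WIRT) (hW : IsOpen W) (V : Cn n → Cn n) (c : ℂ) {g : Cn n → ℂ}
    (hg : ContDiffOn ℝ ∞ g W) {x : Cn n} (hx : x ∈ W) :
    Dv V (fun y => c * g y) x = c * Dv V g x ∧
    Dvb V (fun y => c * g y) x = c * Dvb V g x := by
  have h := Dvm hw hW V (f := fun _ => c) contDiffOn_const hg hx
  have k := Dvk V c x
  constructor
  · rw [h.1, k.1, mul_zero, add_zero]
  · rw [h.2, k.2, mul_zero, add_zero]

theorem Dvj (hw : S_WIRT) (hW : IsOpen W) (V : Cn n → Cn n) {f : Cn n → ℂ}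
    (hf : ContDiffOn ℝ ∞ f W) {x : Cn n} (hx : x ∈ W) :
    Dv V (fun y => conj (f y)) x = conj (Dvb V f x) ∧
    Dvb V (fun y => conj (f y)) x = conj (Dv V f x) := by
  unfold Dv Dvb
  have h := fun l => (hw W hW f f hf hf).2.2.2.1 l x hx
  constructor
  · rw [map_sum]
    refine Finset.sum_congr rfl fun l _ => ?_
    rw [(h l).1, map_mul, Complex.conj_conj]
  · rw [map_sum]
    refine Finset.sum_congr rfl fun l _ => ?_
    rw [(h l).2, map_mul]

theorem smj {f : Cn n → ℂ} (hf : ContDiffOn ℝ ∞ f W) :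
    ContDiffOn ℝ ∞ (fun y => conj (f y)) W := Complex.conjCLE.contDiff.comp_contDiffOn hf

theorem smD (hw : S_WIRT) (hW : IsOpen W) {V : Cn n → Cn n}
    (hV : ∀ j, ContDiffOn ℝ ∞ (fun y => V y j) W) {f : Cn n → ℂ} (hf : ContDiffOn ℝ ∞ f W) :
    ContDiffOn ℝ ∞ (Dv V f) W ∧ ContDiffOn ℝ ∞ (Dvb V f) W := by
  have h := (hw W hW f f hf hf).1
  constructor
  · exact ContDiffOn.sum fun j _ => (hV j).mul (h j).1
  · exact ContDiffOn.sum fun j _ => (smj (hV j)).mul (h j).2

/-- second derivatives -/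
theorem DvDvb (hw : S_WIRT) (hW : IsOpen W) {V : Cn n → Cn n}
    (hV : ∀ j, ContDiffOn ℝ ∞ (fun y => V y j) W) {f : Cn n → ℂ} (hf : ContDiffOn ℝ ∞ f W)
    {x : Cn n} (hx : x ∈ W) (hVV : ∀ j, Dvb V (fun y => V y j) x = 0) :
    Dv V (Dvb V f) x = ∑ k, ∑ l, V x k * conj (V x l) * cd k (cdb l f) x ∧
    Dvb V (Dv V f) x = ∑ k, ∑ l, V x k * conj (V x l) * cd k (cdb l f) x := by
  have h := hw W hW f f hf hf
  constructor
  · have h1 : Dv V (Dvb V f) x = ∑ l, (conj (V x l) * Dv V (cdb l f) x) := by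
      have := (Dvs hw hW V (fun l y => conj (V y l) * cdb l f y)
        (fun l => (smj (hV l)).mul (h.1 l).2) hx).1
      refine this.trans (Finset.sum_congr rfl fun l _ => ?_)
      rw [(Dvm hw hW V (smj (hV l)) (h.1 l).2 hx).1, (Dvj hw hW V (hV l) hx).1, hVV l, map_zero,
        mul_zero, add_zero]
    rw [h1, Finset.sum_comm]
    refine Finset.sum_congr rfl fun l _ => ?_
    unfold Dv
    rw [Finset.mul_sum]
    exact Finset.sum_congr rfl fun k _ => by ring
  · have h1 : Dvb V (Dv V f) x = ∑ k, (V x k * Dvb V (cd k f) x) := by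
      have := (Dvs hw hW V (fun k y => V y k * cd k f y)
        (fun k => (hV k).mul (h.1 k).1) hx).2
      refine this.trans (Finset.sum_congr rfl fun k _ => ?_)
      rw [(Dvm hw hW V (hV k) (h.1 k).1 hx).2, hVV k, mul_zero, add_zero]
    rw [h1]
    refine Finset.sum_congr rfl fun k _ => ?_
    unfold Dvb
    rw [Finset.mul_sum]
    refine Finset.sum_congr rfl fun l _ => ?_
    rw [(h.2.2.2.2.1 k l x hx).2.2]
    ring

/-- the second order expression -/
noncomputable def Kf (g : Cn n → Matrix (Fin n) (Fin n) ℂ) (x e ξ η : Cn n) : ℂ :=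
  ∑ i, ∑ j, ((∑ k, ∑ l, e k * conj (e l) * cd k (cdb l fun y => g y i j) x) * (ξ i * conj (ξ j)) +
    (∑ l, conj (e l) * cdb l (fun y => g y i j) x) * (η i * conj (ξ j)) +
    (∑ l, e l * cd l (fun y => g y i j) x) * (ξ i * conj (η j)) +
    g x i j * (η i * conj (η j)))

theorem main (hw : S_WIRT) (hW : IsOpen W) {V X : Cn n → Cn n}
    (hV : ∀ j, ContDiffOn ℝ ∞ (fun y => V y j) W) (hX : ∀ j, ContDiffOn ℝ ∞ (fun y => X y j) W)
    (hVV : ∀ y ∈ W, ∀ j, Dvb V (fun y => V y j) y = 0)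
    (hVX : ∀ y ∈ W, ∀ j, Dvb V (fun y => X y j) y = 0)
    {g : Cn n → Matrix (Fin n) (Fin n) ℂ} (hg : ∀ i j, ContDiffOn ℝ ∞ (fun x => g x i j) W)
    {x : Cn n} (hx : x ∈ W) :
    Dv V (Dvb V fun y => hermi (g y) (X y) (X y)) x =
      Kf g x (V x) (X x) (fun i => Dv V (fun y => X y i) x) := by
  have sX := fun j => smj (hX j)
  have hXb : ∀ j, ∀ y ∈ W, Dv V (fun y => conj (X y j)) y = 0 := by
    intro j y hy
    rw [(Dvj hw hW V (hX j) hy).1, hVX y hy j, map_zero]
  -- first derivative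
  have h1 : ∀ y ∈ W, Dvb V (fun y => hermi (g y) (X y) (X y)) y =
      ∑ i, ∑ j, (X y i * (conj (X y j)) * Dvb V (fun y => g y i j) y +
        g y i j * (X y i * Dvb V (fun y => conj (X y j)) y)) := by
    intro y hy
    unfold hermi
    rw [(Dvs hw hW V (fun i y => ∑ j, g y i j * X y i * conj (X y j))
      (fun i => ContDiffOn.sum fun j _ => ((hg i j).mul (hX i)).mul (sX j)) hy).2]
    refine Finset.sum_congr rfl fun i _ => ?_
    rw [(Dvs hw hW V (fun j y => g y i j * X y i * conj (X y j))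
      (fun j => ((hg i j).mul (hX i)).mul (sX j)) hy).2]
    refine Finset.sum_congr rfl fun j _ => ?_
    rw [(Dvm hw hW V (f := fun y => g y i j * X y i) ((hg i j).mul (hX i)) (sX j) hy).2,
      (Dvm hw hW V (hg i j) (hX i) hy).2, hVX y hy i]
    ring
  rw [(Dvc hW V h1 hx).1]
  have sDg : ∀ i j, ContDiffOn ℝ ∞ (Dvb V fun y => g y i j) W := fun i j =>
    (smD hw hW hV (hg i j)).2
  have sDX : ∀ j, ContDiffOn ℝ ∞ (Dvb V fun y => conj (X y j)) W := fun j =>
    (smD hw hW hV (sX j)).2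
  have s1 : ∀ i j, ContDiffOn ℝ ∞ (fun y => X y i * (conj (X y j)) * Dvb V (fun y => g y i j) y)
      W := fun i j => ((hX i).mul (sX j)).mul (sDg i j)
  have s2 : ∀ i j, ContDiffOn ℝ ∞ (fun y => g y i j * (X y i * Dvb V (fun y => conj (X y j)) y))
      W := fun i j => (hg i j).mul ((hX i).mul (sDX j))
  rw [(Dvs hw hW V (fun i y => ∑ j, (X y i * (conj (X y j)) * Dvb V (fun y => g y i j) y +
        g y i j * (X y i * Dvb V (fun y => conj (X y j)) y)))
      (fun i => ContDiffOn.sum fun j _ => (s1 i j).add (s2 i j)) hx).1]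
  unfold Kf
  refine Finset.sum_congr rfl fun i _ => ?_
  rw [(Dvs hw hW V (fun j y => (X y i * (conj (X y j)) * Dvb V (fun y => g y i j) y +
        g y i j * (X y i * Dvb V (fun y => conj (X y j)) y)))
      (fun j => (s1 i j).add (s2 i j)) hx).1]
  refine Finset.sum_congr rfl fun j _ => ?_
  have ha : Dv V (fun y => (X y i * (conj (X y j)) * Dvb V (fun y => g y i j) y +
        g y i j * (X y i * Dvb V (fun y => conj (X y j)) y))) x =
      Dv V (fun y => X y i * (conj (X y j)) * Dvb V (fun y => g y i j) y) x +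
      Dv V (fun y => g y i j * (X y i * Dvb V (fun y => conj (X y j)) y)) x := by
    have := fun l => ((hw W hW _ _ (s1 i j) (s2 i j)).2.1 l x hx).1
    unfold Dv
    rw [← Finset.sum_add_distrib]
    refine Finset.sum_congr rfl fun l _ => ?_
    rw [← mul_add]
    congr 1
    exact this l
  rw [ha, (Dvm hw hW V (f := fun y => X y i * conj (X y j)) ((hX i).mul (sX j)) (sDg i j) hx).1,
    (Dvm hw hW V (hX i) (sX j) hx).1, hXb j x hx,
    (Dvm hw hW V (hg i j) (g := fun y => X y i * Dvb V (fun y => conj (X y j)) y)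
      ((hX i).mul (sDX j)) hx).1,
    (Dvm hw hW V (hX i) (sDX j) hx).1]
  have hb : Dv V (Dvb V fun y => conj (X y j)) x = 0 := by
    have e := DvDvb hw hW hV (sX j) hx (hVV x hx)
    rw [e.1, ← e.2, (Dvc hW V (hXb j) hx).2, (Dvk V 0 x).2]
  rw [hb, (DvDvb hw hW hV (hg i j) hx (hVV x hx)).1, (Dvj hw hW V (hX j) hx).2]
  unfold Dv Dvb
  ring

theorem first (hw : S_WIRT) (hW : IsOpen W) {V A X : Cn n → Cn n}
    (hA : ∀ j, ContDiffOn ℝ ∞ (fun y => A y j) W) (hX : ∀ j, ContDiffOn ℝ ∞ (fun y => X y j) W)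
    {g : Cn n → Matrix (Fin n) (Fin n) ℂ} (hg : ∀ i j, ContDiffOn ℝ ∞ (fun x => g x i j) W)
    {x : Cn n} (hx : x ∈ W) (hVA : ∀ j, Dvb V (fun y => A y j) x = 0) :
    Dvb V (fun y => hermi (g y) (A y) (X y)) x =
      ∑ i, ∑ j, ((∑ l, conj (V x l) * cdb l (fun y => g y i j) x) * (A x i * conj (X x j)) +
        g x i j * (A x i * conj (Dv V (fun y => X y j) x))) := by
  have sX := fun j => smj (hX j)
  unfold hermi
  rw [(Dvs hw hW V (fun i y => ∑ j, g y i j * A y i * conj (X y j))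
    (fun i => ContDiffOn.sum fun j _ => ((hg i j).mul (hA i)).mul (sX j)) hx).2]
  refine Finset.sum_congr rfl fun i _ => ?_
  rw [(Dvs hw hW V (fun j y => g y i j * A y i * conj (X y j))
    (fun j => ((hg i j).mul (hA i)).mul (sX j)) hx).2]
  refine Finset.sum_congr rfl fun j _ => ?_
  rw [(Dvm hw hW V (f := fun y => g y i j * A y i) ((hg i j).mul (hA i)) (sX j) hx).2,
    (Dvm hw hW V (hg i j) (hA i) hx).2, hVA i, (Dvj hw hW V (hX j) hx).2]
  unfold Dvb
  ring

/-- algebra -/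
theorem alg {g : Cn n → Matrix (Fin n) (Fin n) ℂ} {x : Cn n} (hH : (g x).IsHermitian)
    {e ξ η a : Cn n}
    (hc : ∀ l i j, cd l (fun y => g y i j) x = conj (cdb l (fun y => g y j i) x)) :
    (Kf g x e ξ (a + η)).re = (Kf g x e ξ η).re +
      2 * (∑ i, ∑ j, ((∑ l, conj (e l) * cdb l (fun y => g y i j) x) * (a i * conj (ξ j)) +
        g x i j * (a i * conj (η j)))).re + (hermi (g x) a a).re := by
  have h1 : Kf g x e ξ (a + η) = Kf g x e ξ η +
      (∑ i, ∑ j, ((∑ l, conj (e l) * cdb l (fun y => g y i j) x) * (a i * conj (ξ j)) +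
        g x i j * (a i * conj (η j)))) +
      (∑ i, ∑ j, ((∑ l, e l * cd l (fun y => g y i j) x) * (ξ i * conj (a j)) +
        g x i j * (η i * conj (a j)))) + hermi (g x) a a := by
    unfold Kf hermi
    simp only [← Finset.sum_add_distrib]
    refine Finset.sum_congr rfl fun i _ => Finset.sum_congr rfl fun j _ => ?_
    simp only [Pi.add_apply, map_add]
    ring
  have h2 : (∑ i, ∑ j, ((∑ l, e l * cd l (fun y => g y i j) x) * (ξ i * conj (a j)) +
        g x i j * (η i * conj (a j)))) =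
      conj (∑ i, ∑ j, ((∑ l, conj (e l) * cdb l (fun y => g y i j) x) * (a i * conj (ξ j)) +
        g x i j * (a i * conj (η j)))) := by
    rw [map_sum, Finset.sum_comm]
    refine Finset.sum_congr rfl fun j _ => ?_
    rw [map_sum]
    refine Finset.sum_congr rfl fun i _ => ?_
    have h3 : g x i j = conj (g x j i) := (hH.apply i j).symm
    rw [map_add, map_mul, map_mul, map_mul, map_mul, map_sum, Complex.conj_conj, Complex.conj_conj,
      ← h3]
    have h4 : ∑ l, conj (conj (e l) * cdb l (fun y => g y j i) x) =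
        ∑ l, e l * cd l (fun y => g y i j) x :=
      Finset.sum_congr rfl fun l _ => by rw [map_mul, Complex.conj_conj, hc l i j]
    rw [h4]
    ring
  rw [h1, h2]
  simp only [Complex.add_re, Complex.conj_re]
  ring

end tk

section cvk

variable {n k : ℕ} {W : Set (Cn n)} {v : Fin k → Cn n → Cn n}

theorem lc1 (c : Cn k) (f : Cn n → ℂ) (x : Cn n) :
    Dv (fun y => ∑ α, c α • v α y) f x = ∑ α, c α * Dv (v α) f x ∧
    Dvb (fun y => ∑ α, c α • v α y) f x = ∑ α, conj (c α) * Dvb (v α) f x := by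
  unfold Dv Dvb
  constructor
  · simp only [Finset.sum_apply, Pi.smul_apply, smul_eq_mul, Finset.sum_mul, Finset.mul_sum]
    rw [Finset.sum_comm]
    exact Finset.sum_congr rfl fun α _ => Finset.sum_congr rfl fun j _ => by ring
  · simp only [Finset.sum_apply, Pi.smul_apply, smul_eq_mul, map_sum, map_mul, Finset.sum_mul,
      Finset.mul_sum]
    rw [Finset.sum_comm]
    exact Finset.sum_congr rfl fun α _ => Finset.sum_congr rfl fun j _ => by ring

theorem hlc (g : Cn n → Matrix (Fin n) (Fin n) ℂ) (s t : Cn k) (y : Cn n) :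
    hermi (g y) (∑ γ, s γ • v γ y) (∑ δ, t δ • v δ y) =
      ∑ γ, ∑ δ, s γ * conj (t δ) * gram g v y γ δ := by
  unfold gram hermi
  simp only [Matrix.of_apply, Finset.sum_apply, Pi.smul_apply, smul_eq_mul, map_sum, map_mul,
    Finset.sum_mul, Finset.mul_sum]
  have h1 : ∀ F : Fin n → Fin n → Fin k → Fin k → ℂ,
      ∑ i, ∑ j, ∑ δ, ∑ γ, F i j δ γ = ∑ γ, ∑ δ, ∑ i, ∑ j, F i j δ γ := by
    intro F
    calc ∑ i, ∑ j, ∑ δ, ∑ γ, F i j δ γ = ∑ i, ∑ j, ∑ γ, ∑ δ, F i j δ γ :=
          Finset.sum_congr rfl fun i _ => Finset.sum_congr rfl fun j _ => Finset.sum_comm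
      _ = ∑ i, ∑ γ, ∑ j, ∑ δ, F i j δ γ :=
          Finset.sum_congr rfl fun i _ => Finset.sum_comm
      _ = ∑ γ, ∑ i, ∑ j, ∑ δ, F i j δ γ := Finset.sum_comm
      _ = ∑ γ, ∑ i, ∑ δ, ∑ j, F i j δ γ :=
          Finset.sum_congr rfl fun γ _ => Finset.sum_congr rfl fun i _ => Finset.sum_comm
      _ = ∑ γ, ∑ δ, ∑ i, ∑ j, F i j δ γ :=
          Finset.sum_congr rfl fun γ _ => Finset.sum_comm
  rw [h1]
  refine Finset.sum_congr rfl fun γ _ => Finset.sum_congr rfl fun δ _ =>
    Finset.sum_congr rfl fun i _ => Finset.sum_congr rfl fun j _ => ?_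
  ring

theorem smG {g : Cn n → Matrix (Fin n) (Fin n) ℂ} (hg : ∀ i j, ContDiffOn ℝ ∞ (fun x => g x i j) W)
    (hv : ∀ α j, ContDiffOn ℝ ∞ (fun y => v α y j) W) (α β : Fin k) :
    ContDiffOn ℝ ∞ (fun y => gram g v y α β) W := by
  unfold gram hermi
  simp only [Matrix.of_apply]
  exact ContDiffOn.sum fun i _ => ContDiffOn.sum fun j _ =>
    ((hg i j).mul (hv α i)).mul (smj (hv β j))

theorem dbG (hw : S_WIRT) (hW : IsOpen W) {g : Cn n → Matrix (Fin n) (Fin n) ℂ}
    (hg : ∀ i j, ContDiffOn ℝ ∞ (fun x => g x i j) W)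
    (hv : ∀ α j, ContDiffOn ℝ ∞ (fun y => v α y j) W) (c s t : Cn k) {x : Cn n} (hx : x ∈ W) :
    Dvb (fun y => ∑ α, c α • v α y)
      (fun y => hermi (g y) (∑ γ, s γ • v γ y) (∑ δ, t δ • v δ y)) x =
    ∑ β, ∑ γ, ∑ δ, conj (c β) * s γ * conj (t δ) * Dvb (v β) (fun y => gram g v y γ δ) x := by
  rw [(lc1 (v := v) c _ x).2]
  refine Finset.sum_congr rfl fun β _ => ?_
  have h0 : (fun y => hermi (g y) (∑ γ, s γ • v γ y) (∑ δ, t δ • v δ y)) =
      fun y => ∑ γ, ∑ δ, s γ * conj (t δ) * gram g v y γ δ := funext fun y => hlc g s t y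
  have sG := smG hg hv
  rw [h0, (Dvs hw hW (v β) (fun γ y => ∑ δ, s γ * conj (t δ) * gram g v y γ δ)
    (fun γ => ContDiffOn.sum fun δ _ => contDiffOn_const.mul (sG γ δ)) hx).2, Finset.mul_sum]
  refine Finset.sum_congr rfl fun γ _ => ?_
  rw [(Dvs hw hW (v β) (fun δ y => s γ * conj (t δ) * gram g v y γ δ)
    (fun δ => contDiffOn_const.mul (sG γ δ)) hx).2, Finset.mul_sum]
  refine Finset.sum_congr rfl fun δ _ => ?_
  rw [(Dvcm hw hW (v β) (s γ * conj (t δ)) (sG γ δ) hx).2]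
  ring

theorem ddG (hw : S_WIRT) (hW : IsOpen W) {g : Cn n → Matrix (Fin n) (Fin n) ℂ}
    (hg : ∀ i j, ContDiffOn ℝ ∞ (fun x => g x i j) W)
    (hv : ∀ α j, ContDiffOn ℝ ∞ (fun y => v α y j) W) (c s t : Cn k) {x : Cn n} (hx : x ∈ W) :
    Dv (fun y => ∑ α, c α • v α y) (Dvb (fun y => ∑ α, c α • v α y)
      (fun y => hermi (g y) (∑ γ, s γ • v γ y) (∑ δ, t δ • v δ y))) x =
    ∑ α, ∑ β, ∑ γ, ∑ δ, c α * conj (c β) * s γ * conj (t δ) *
      DD v α β (fun y => gram g v y γ δ) x := by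
  have sG := smG hg hv
  have sD : ∀ β γ δ, ContDiffOn ℝ ∞ (Dvb (v β) (fun y => gram g v y γ δ)) W := fun β γ δ =>
    (smD hw hW (hv β) (sG γ δ)).2
  have sD' : ∀ β γ δ, ContDiffOn ℝ ∞ (fun y => conj (c β) * s γ * conj (t δ) *
      Dvb (v β) (fun y => gram g v y γ δ) y) W := fun β γ δ => contDiffOn_const.mul (sD β γ δ)
  rw [(Dvc hW _ (fun y hy => dbG hw hW hg hv c s t hy) hx).1, (lc1 (v := v) c _ x).1]
  refine Finset.sum_congr rfl fun α _ => ?_
  rw [(Dvs hw hW (v α) (fun β y => ∑ γ, ∑ δ, conj (c β) * s γ * conj (t δ) *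
      Dvb (v β) (fun y => gram g v y γ δ) y)
    (fun β => ContDiffOn.sum fun γ _ => ContDiffOn.sum fun δ _ => sD' β γ δ) hx).1,
    Finset.mul_sum]
  refine Finset.sum_congr rfl fun β _ => ?_
  rw [(Dvs hw hW (v α) (fun γ y => ∑ δ, conj (c β) * s γ * conj (t δ) *
      Dvb (v β) (fun y => gram g v y γ δ) y)
    (fun γ => ContDiffOn.sum fun δ _ => sD' β γ δ) hx).1, Finset.mul_sum]
  refine Finset.sum_congr rfl fun γ _ => ?_
  rw [(Dvs hw hW (v α) (fun δ y => conj (c β) * s γ * conj (t δ) *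
      Dvb (v β) (fun y => gram g v y γ δ) y)
    (fun δ => sD' β γ δ) hx).1, Finset.mul_sum]
  refine Finset.sum_congr rfl fun δ _ => ?_
  rw [(Dvcm hw hW (v α) (conj (c β) * s γ * conj (t δ)) (sD β γ δ) hx).1]
  unfold DD
  ring

theorem hre {A : Matrix (Fin n) (Fin n) ℂ} (hA : A.IsHermitian) (u : Cn n) :
    (((hermi A u u).re : ℝ) : ℂ) = hermi A u u := by
  refine (Complex.conj_eq_iff_re (z := hermi A u u)).mp ?_
  unfold hermi
  rw [map_sum, Finset.sum_comm]
  refine Finset.sum_congr rfl fun i _ => ?_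
  rw [map_sum]
  refine Finset.sum_congr rfl fun j _ => ?_
  have h3 : A j i = conj (A i j) := (hA.apply j i).symm
  rw [map_mul, map_mul, Complex.conj_conj, h3]
  ring

theorem hpos {A : Matrix (Fin n) (Fin n) ℂ} (hA : A.PosSemidef) (u : Cn n) :
    0 ≤ (hermi A u u).re := by
  have h := hA.dotProduct_mulVec_nonneg (star u)
  have h2 : star (star u) ⬝ᵥ A *ᵥ (star u) = hermi A u u := by
    unfold hermi
    rw [star_star]
    simp only [dotProduct, Matrix.mulVec, Finset.mul_sum, Pi.star_apply]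
    refine Finset.sum_congr rfl fun i _ => Finset.sum_congr rfl fun j _ => ?_
    change u i * (A i j * conj (u j)) = _
    ring
  rw [h2] at h
  exact (Complex.le_def.mp h).1

end cvk

theorem sig {n : ℕ} (ξ x e w : Cn n) (j : Fin n) (he : e j ≠ 0) :
    Differentiable ℂ (fun y : Cn n => ξ + ((y j - x j) / e j) • w) ∧
    (∀ i y, Dvb (fun _ => e) (fun y : Cn n => (ξ + ((y j - x j) / e j) • w) i) y = 0) ∧
    (∀ i y, Dv (fun _ => e) (fun y : Cn n => (ξ + ((y j - x j) / e j) • w) i) y = 2 * w i) := by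
  have hf : ∀ i (y u : Cn n), fderiv ℝ (fun y : Cn n => (ξ + ((y j - x j) / e j) • w) i) y u =
      u j / e j * w i := by
    intro i y u
    have h1 : HasFDerivAt (𝕜 := ℝ) (fun y : Cn n => (ξ + ((y j - x j) / e j) • w) i)
        (((w i / e j) • (ContinuousLinearMap.proj (R := ℂ) (φ := fun _ : Fin n => ℂ)
          j)).restrictScalars ℝ) y := by
      have h2 : HasFDerivAt (𝕜 := ℂ) (fun y : Cn n => (ξ + ((y j - x j) / e j) • w) i)
          ((w i / e j) • (ContinuousLinearMap.proj (R := ℂ) (φ := fun _ : Fin n => ℂ) j)) y := by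
        have h3 : (fun y : Cn n => (ξ + ((y j - x j) / e j) • w) i) =
            fun y => (ξ i - x j * (w i / e j)) + ((w i / e j) •
              (ContinuousLinearMap.proj (R := ℂ) (φ := fun _ : Fin n => ℂ) j)) y := by
          funext y
          simp only [Pi.add_apply, Pi.smul_apply, smul_eq_mul, _root_.smul_apply,
            ContinuousLinearMap.proj_apply]
          ring
        rw [h3]
        exact (ContinuousLinearMap.hasFDerivAt _).const_add _
      exact h2.restrictScalars ℝ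
    rw [h1.fderiv]
    simp only [ContinuousLinearMap.coe_restrictScalars', _root_.smul_apply,
      ContinuousLinearMap.proj_apply, smul_eq_mul]
    ring
  refine ⟨?_, ?_, ?_⟩
  · refine differentiable_pi.mpr fun i => ?_
    simp only [Pi.add_apply, Pi.smul_apply, smul_eq_mul]
    fun_prop
  · intro i y
    unfold Dvb cdb
    refine Finset.sum_eq_zero fun l _ => ?_
    rw [hf, hf]
    by_cases hl : l = j
    · subst hl
      simp only [Pi.single_eq_same]
      have : (1 : ℂ) / e l * w i + I * (I / e l * w i) = (1 + I * I) / e l * w i := by ring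
      rw [this, Complex.I_mul_I]
      simp
    · have : j ≠ l := fun h => hl h.symm
      simp [Pi.single_eq_of_ne this]
  · intro i y
    unfold Dv cd
    rw [Finset.sum_eq_single j]
    · rw [hf, hf]
      simp only [Pi.single_eq_same]
      have : e j * ((1 : ℂ) / e j * w i - I * (I / e j * w i)) =
        (e j / e j) * (1 - I * I) * w i := by ring
      rw [this, Complex.I_mul_I, div_self he]
      ring
    · intro l _ hl
      rw [hf, hf]
      simp [Pi.single_eq_of_ne hl.symm]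
    · intro h
      exact absurd (Finset.mem_univ j) h

theorem cvk (hw : S_WIRT) (hL : S_LMF) (hB : S_KFB) (hD : S_DERK) : S_CVK := by
  intro b k Φ W L w v hK g hg hp
  have hW := hK.isOpen
  have hv : ∀ α j, ContDiffOn ℝ ∞ (fun y => v α y j) W := fun α j =>
    contDiffOn_pi.mp (hK.smv α) j
  have hH : ∀ y ∈ W, (g y).IsHermitian := fun y hy => (hp y hy).isHermitian
  -- linear combinations
  have sV : ∀ (c : Cn k) j, ContDiffOn ℝ ∞ (fun y => (∑ α, c α • v α y) j) W := by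
    intro c j
    simp only [Finset.sum_apply, Pi.smul_apply, smul_eq_mul]
    exact ContDiffOn.sum fun α _ => contDiffOn_const.mul (hv α j)
  have hVX : ∀ (c s : Cn k), ∀ y ∈ W, ∀ j, Dvb (fun y => ∑ α, c α • v α y)
      (fun y => (∑ γ, s γ • v γ y) j) y = 0 := by
    intro c s y hy j
    rw [(lc1 (v := v) c _ y).2]
    refine Finset.sum_eq_zero fun β _ => ?_
    have h1 : (fun y => (∑ γ, s γ • v γ y) j) = fun y => ∑ γ, s γ * v γ y j := by
      funext y
      simp only [Finset.sum_apply, Pi.smul_apply, smul_eq_mul]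
    rw [h1, (Dvs hw hW (v β) (fun γ y => s γ * v γ y j)
      (fun γ => contDiffOn_const.mul (hv γ j)) hy).2]
    have h2 : ∑ γ, Dvb (v β) (fun y => s γ * v γ y j) y = 0 := by
      refine Finset.sum_eq_zero fun γ _ => ?_
      rw [(Dvcm hw hW (v β) (s γ) (hv γ j) hy).2, (hD hK y hy).2.1 γ β j, mul_zero]
    rw [h2, mul_zero]
  have hc : ∀ x ∈ W, ∀ l i j, cd l (fun y => g y i j) x = conj (cdb l (fun y => g y j i) x) := by
    intro x hx l i j
    rw [← ((hw W hW _ _ (hg j i) (hg j i)).2.2.2.1 l x hx).1]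
    refine (cdc hW (fun y hy => ?_) l hx).1
    exact ((hH y hy).apply i j).symm
  -- the main identity
  have key : ∀ x ∈ W, ∀ c s a : Cn k, c ≠ 0 → ∃ σ : Cn (b + k) → Cn (b + k),
      Differentiable ℂ σ ∧ σ x = ∑ γ, s γ • v γ x ∧
      lev (sqT g σ) x (∑ α, c α • v α x) = Qcv g v x c s a := by
    intro x hx c s a hc0
    obtain ⟨e, hedef⟩ : ∃ e, e = ∑ α, c α • v α x := ⟨_, rfl⟩
    have he0 : e ≠ 0 := by
      intro h0
      apply hc0
      have h1 : L e = c := by
        rw [hedef, map_sum]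
        simp only [map_smul, hK.norm x hx]
        funext β
        simp [Finset.sum_apply, Pi.single_apply]
      rw [← h1, h0, map_zero]
    obtain ⟨j, hj⟩ : ∃ j, e j ≠ 0 := by
      by_contra hcon
      push Not at hcon
      exact he0 (funext hcon)
    obtain ⟨ξ, hξ⟩ : ∃ ξ : Cn (b + k), ξ = ∑ γ, s γ • v γ x := ⟨_, rfl⟩
    obtain ⟨A, hA⟩ : ∃ A : Cn (b + k), A = ∑ γ, a γ • v γ x := ⟨_, rfl⟩
    obtain ⟨η, hη⟩ : ∃ η : Cn (b + k), η = fun i => Dv (fun y => ∑ α, c α • v α y)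
      (fun y => (∑ γ, s γ • v γ y) i) x := ⟨_, rfl⟩
    obtain ⟨sd, sdb, sdv⟩ := sig ξ x e ((2 : ℂ)⁻¹ • (A + η)) j hj
    obtain ⟨σ, hσ⟩ : ∃ σ : Cn (b + k) → Cn (b + k), σ = fun y : Cn (b + k) =>
      ξ + ((y j - x j) / e j) • ((2 : ℂ)⁻¹ • (A + η)) := ⟨_, rfl⟩
    have sdb' : ∀ i y, Dvb (fun _ => e) (fun y => σ y i) y = 0 := by
      rw [hσ]; exact sdb
    have sdv' : ∀ i y, Dv (fun _ => e) (fun y => σ y i) y = (A + η) i := by
      intro i y
      rw [hσ]
      refine (sdv i y).trans ?_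
      simp only [Pi.smul_apply, smul_eq_mul]
      ring
    have sd' : Differentiable ℂ σ := by rw [hσ]; exact sd
    have sσ : ∀ i, ContDiffOn ℝ ∞ (fun y => σ y i) W := by
      intro i
      rw [hσ]
      simp only [Pi.add_apply, Pi.smul_apply, smul_eq_mul]
      fun_prop
    have hσx : σ x = ξ := by
      rw [hσ]
      simp
    refine ⟨σ, sd', hσx.trans hξ, ?_⟩
    rw [← hedef]
    -- left side
    have sF : ContDiffOn ℝ ∞ (fun y => hermi (g y) (σ y) (σ y)) W := by
      unfold hermi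
      exact ContDiffOn.sum fun i _ => ContDiffOn.sum fun j _ =>
        ((hg i j).mul (sσ i)).mul (smj (sσ j))
    have sq : ContDiffOn ℝ ∞ (sqT g σ) W := Complex.reCLM.contDiff.comp_contDiffOn sF
    have l1 := (hL W hW (sqT g σ) sq).2.2.1 x hx e
    have l2 : hermi (LM (sqT g σ) x) e e =
        Dv (fun _ => e) (Dvb (fun _ => e) fun y => hermi (g y) (σ y) (σ y)) x := by
      rw [(DvDvb hw hW (V := fun _ => e) (fun j => contDiffOn_const) sF hx
        (fun j => (Dvk _ _ x).2)).1]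
      unfold hermi LM
      refine Finset.sum_congr rfl fun k _ => Finset.sum_congr rfl fun l _ => ?_
      simp only [Matrix.of_apply]
      have h1 : ∀ y ∈ W, ((sqT g σ y : ℝ) : ℂ) = hermi (g y) (σ y) (σ y) := fun y hy =>
        hre (hH y hy) (σ y)
      have h2 : cd k (cdb l fun y => ((sqT g σ y : ℝ) : ℂ)) x =
          cd k (cdb l fun y => hermi (g y) (σ y) (σ y)) x :=
        (cdc hW (fun y hy => (cdc hW h1 l hy).2) k hx).1
      rw [h2]
      unfold hermi
      ring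
    have l3 := main hw hW (V := fun _ => e) (X := σ) (fun j => contDiffOn_const) sσ
      (fun y _ j => (Dvk _ _ y).2) (fun y _ j => sdb' j y) hg hx
    have l4 : (fun i => Dv (fun _ => e) (fun y => σ y i) x) = A + η := funext fun i => sdv' i x
    rw [l4, hσx] at l3
    have l5 : lev (sqT g σ) x e = (Kf g x e ξ (A + η)).re := by
      rw [← l3, ← l2, ← l1, Complex.ofReal_re]
    rw [l5, alg (hH x hx) (hc x hx)]
    -- right side
    have r1 := ddG hw hW hg hv c s s hx
    rw [main hw hW (sV c) (sV s) (hVX c c) (hVX c s) hg hx] at r1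
    have r2 := dbG hw hW hg hv c a s hx
    rw [first hw hW (sV a) (sV s) hg hx (hVX c a x hx)] at r2
    have r3 := hlc (v := v) g a a x
    unfold Qcv
    rw [← r1, ← r2, ← r3, ← hedef, ← hξ, ← hA, hη]
  have hz : ∀ x ∈ W, ∀ s a : Cn k, 0 ≤ Qcv g v x 0 s a := by
    intro x hx s a
    have r3 := hlc (v := v) g a a x
    unfold Qcv
    rw [← r3]
    simp only [Pi.zero_apply, map_zero, zero_mul, mul_zero, Finset.sum_const_zero,
      Complex.zero_re, zero_add]
    exact hpos (hp x hx).posSemidef _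
  have hlev := (hB hK).2.2.2.2.1
  constructor
  · intro hG x hx c s a
    by_cases hc0 : c = 0
    · rw [hc0]; exact hz x hx s a
    · obtain ⟨σ, h1, h2, h3⟩ := key x hx c s a hc0
      rw [← h3]
      exact hG σ h1 x hx (by rw [h2]; exact hlev x hx s) _ (hlev x hx c)
  · intro hG x hx s a
    by_cases hc0 : s = 0
    · rw [hc0]; exact hz x hx 0 a
    · obtain ⟨σ, h1, h2, h3⟩ := key x hx s s a hc0
      rw [← h3, ← h2]
      exact hG σ h1 x hx (by rw [h2]; exact hlev x hx s)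

end Pool.Agent.Helper94.RK
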