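import Pool.Agent.Helper94.RK.CVK

/-! # RK packet FRB: the function `u` is constant on the leaves -/

open Complex Metric Set Filter Topology MeasureTheory
open scoped ContDiff ComplexConjugate ComplexOrder Manifold Matrix

namespace Pool.Agent.Helper94.RK

open Pool.Agent.Helper95.Lin Pool.Agent.Helper16.Abund Pool.Agent.Helper92.Orb
  Pool.Agent.Helper10.SP Pool.Agent.Helper95.RK Pool.Agent.Helper15.RK

universe u

section tk

variable {n : ℕ} {W : Set (Cn n)}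

theorem Dva (hw : S_WIRT) (hW : IsOpen W) (V : Cn n → Cn n) {f g : Cn n → ℂ}
    (hf : ContDiffOn ℝ ∞ f W) (hg : ContDiffOn ℝ ∞ g W) {x : Cn n} (hx : x ∈ W) :
    Dv V (fun y => f y + g y) x = Dv V f x + Dv V g x ∧
    Dvb V (fun y => f y + g y) x = Dvb V f x + Dvb V g x := by
  unfold Dv Dvb
  have h := fun l => (hw W hW f g hf hg).2.1 l x hx
  constructor
  · rw [← Finset.sum_add_distrib]
    refine Finset.sum_congr rfl fun l _ => ?_
    rw [(h l).1]; ring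
  · rw [← Finset.sum_add_distrib]
    refine Finset.sum_congr rfl fun l _ => ?_
    rw [(h l).2]; ring

theorem smR {f : Cn n → ℝ} (hf : ContDiffOn ℝ ∞ f W) :
    ContDiffOn ℝ ∞ (fun y => ((f y : ℝ) : ℂ)) W :=
  Complex.ofRealCLM.contDiff.comp_contDiffOn hf

theorem smRe {f : Cn n → ℂ} (hf : ContDiffOn ℝ ∞ f W) :
    ContDiffOn ℝ ∞ (fun y => (f y).re) W :=
  Complex.reCLM.contDiff.comp_contDiffOn hf

theorem DDc {k : ℕ} (hW : IsOpen W) (v : Fin k → Cn n → Cn n) (α β : Fin k) {f g : Cn n → ℂ}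
    (h : ∀ y ∈ W, f y = g y) {x : Cn n} (hx : x ∈ W) : DD v α β f x = DD v α β g x :=
  (Dvc hW (v α) (fun _ hy => (Dvc hW (v β) h hy).2) hx).1

theorem DDa {k : ℕ} (hw : S_WIRT) (hW : IsOpen W) {v : Fin k → Cn n → Cn n}
    (hv : ∀ α j, ContDiffOn ℝ ∞ (fun y => v α y j) W) (α β : Fin k) {f g : Cn n → ℂ}
    (hf : ContDiffOn ℝ ∞ f W) (hg : ContDiffOn ℝ ∞ g W) {x : Cn n} (hx : x ∈ W) :
    DD v α β (fun y => f y + g y) x = DD v α β f x + DD v α β g x := by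
  unfold DD
  rw [(Dvc hW (v α) (fun y hy => (Dva hw hW (v β) hf hg hy).2) hx).1]
  exact (Dva hw hW (v α) (smD hw hW (hv β) hf).2 (smD hw hW (hv β) hg).2 hx).1

theorem DDk {k : ℕ} (hW : IsOpen W) (v : Fin k → Cn n → Cn n) (α β : Fin k) (c : ℂ)
    {x : Cn n} (hx : x ∈ W) : DD v α β (fun _ => c) x = 0 := by
  unfold DD
  rw [(Dvc hW (v α) (g := fun _ => 0) (fun y _ => (Dvk (v β) c y).2) hx).1, (Dvk (v α) 0 x).1]

theorem DDcm {k : ℕ} (hw : S_WIRT) (hW : IsOpen W) {v : Fin k → Cn n → Cn n}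
    (hv : ∀ α j, ContDiffOn ℝ ∞ (fun y => v α y j) W) (α β : Fin k) (c : ℂ) {f : Cn n → ℂ}
    (hf : ContDiffOn ℝ ∞ f W) {x : Cn n} (hx : x ∈ W) :
    DD v α β (fun y => c * f y) x = c * DD v α β f x := by
  unfold DD
  rw [(Dvc hW (v α) (fun y hy => (Dvcm hw hW (v β) c hf hy).2) hx).1]
  exact (Dvcm hw hW (v α) c (smD hw hW (hv β) hf).2 hx).1

/-- the square of a real function -/
theorem DDsq {k : ℕ} (hw : S_WIRT) (hW : IsOpen W) {v : Fin k → Cn n → Cn n}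
    (hv : ∀ α j, ContDiffOn ℝ ∞ (fun y => v α y j) W) (α β : Fin k) {f : Cn n → ℝ}
    (hf : ContDiffOn ℝ ∞ f W) {x : Cn n} (hx : x ∈ W)
    (h0 : DD v α β (fun y => ((f y : ℝ) : ℂ)) x = 0) :
    DD v α β (fun y => ((f y ^ 2 : ℝ) : ℂ)) x =
      2 * (Dv (v α) (fun y => ((f y : ℝ) : ℂ)) x * conj (Dv (v β) (fun y => ((f y : ℝ) : ℂ)) x)) := by
  have sf := smR hf
  have h1 : ∀ y ∈ W, Dvb (v β) (fun y => ((f y ^ 2 : ℝ) : ℂ)) y =
      2 * (((f y : ℝ) : ℂ) * Dvb (v β) (fun y => ((f y : ℝ) : ℂ)) y) := by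
    intro y hy
    have h2 : (fun y => ((f y ^ 2 : ℝ) : ℂ)) = fun y => ((f y : ℝ) : ℂ) * ((f y : ℝ) : ℂ) := by
      funext z
      push_cast
      ring
    rw [h2, (Dvm hw hW (v β) sf sf hy).2]
    ring
  have h3 : Dvb (v β) (fun y => ((f y : ℝ) : ℂ)) x =
      conj (Dv (v β) (fun y => ((f y : ℝ) : ℂ)) x) := by
    rw [← (Dvj hw hW (v β) sf hx).2]
    simp only [Complex.conj_ofReal]
  have sD := (smD hw hW (hv β) sf).2
  unfold DD at h0 ⊢
  rw [(Dvc hW (v α) h1 hx).1, (Dvcm hw hW (v α) 2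
    (g := fun y => ((f y : ℝ) : ℂ) * Dvb (v β) (fun y => ((f y : ℝ) : ℂ)) y) (sf.mul sD) hx).1,
    (Dvm hw hW (v α) sf sD hx).1, h0, h3]
  ring

end tk

/-- the function `uf` in a frame -/
theorem ufd (hw : S_WIRT) (hB : S_KFB) (hM : S_LDM) (hG : S_LDG) {b k : ℕ}
    {Φ : Cn (b + k) → ℝ} {W : Set (Cn (b + k))} {L : Cn (b + k) →ₗ[ℂ] Cn k}
    {w : Fin b → Cn (b + k)} {v : Fin k → Cn (b + k) → Cn (b + k)} (hK : KFr Φ W L w v)
    {g : Cn (b + k) → Matrix (Fin (b + k)) (Fin (b + k)) ℂ}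
    (hg : ∀ i j, ContDiffOn ℝ ∞ (fun x => g x i j) W) (hp : ∀ x ∈ W, (g x).PosDef) :
    ContDiffOn ℝ ∞ (uf Φ g w v) W ∧ ∀ x ∈ W, ∀ α β,
      DD v α β (fun y => ((uf Φ g w v y : ℝ) : ℂ)) x =
        Matrix.trace (Tm (v α) x * mc (Tm (v β) x)) -
          ∑ γ, ∑ δ, (gram g v x)⁻¹ δ γ * CRV g v x α β γ δ := by
  have hW := hK.isOpen
  have hv : ∀ α j, ContDiffOn ℝ ∞ (fun y => v α y j) W := fun α j =>
    contDiffOn_pi.mp (hK.smv α) j
  obtain ⟨b1, b2, b3, b4, b5, b6⟩ := hB hK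
  obtain ⟨c1, c2⟩ := b6 g hg
  have c3 := c2 hp
  have sm : ContDiffOn ℝ ∞ (fun y => Real.log (mdet Φ w y).re) W :=
    (smRe b2).log fun y hy => (b1 y hy).2.ne'
  have sdet : ContDiffOn ℝ ∞ (fun y => (gram g v y).det) W := by
    simp only [Matrix.det_apply]
    exact ContDiffOn.sum fun σ _ => ContDiffOn.const_smul _
      (contDiffOn_prod fun i _ => c1 (σ i) i)
  have sg : ContDiffOn ℝ ∞ (fun y => Real.log (gram g v y).det.re) W :=
    (smRe sdet).log fun y hy => (c3 y hy).2.2.ne'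
  have hfor : ∀ z ∈ W, ∀ y ∈ W, uf Φ g w v y = Real.log (mdet Φ w y).re +
      (Real.log (gram g v y).det.re + (- Real.log (‖(PM w fun α => v α z).det‖ ^ 2) + - Φ y)) := by
    intro z hz y hy
    unfold uf dens
    have h1 : ‖(PM w fun α => v α y).det‖ ^ 2 ≠ 0 :=
      pow_ne_zero 2 (norm_ne_zero_iff.mpr (b3 y hy))
    rw [Real.log_div (mul_ne_zero (b1 y hy).2.ne' (c3 y hy).2.2.ne') h1,
      Real.log_mul (b1 y hy).2.ne' (c3 y hy).2.2.ne', b4 y hy z hz]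
    ring
  constructor
  · by_cases hne : W.Nonempty
    · obtain ⟨z, hz⟩ := hne
      exact (sm.add (sg.add (contDiffOn_const.add hK.smP.neg))).congr (hfor z hz)
    · rw [Set.not_nonempty_iff_eq_empty] at hne
      rw [hne]
      exact contDiffOn_empty
  · intro x hx α β
    have e1 : ∀ y ∈ W, ((uf Φ g w v y : ℝ) : ℂ) = ((Real.log (mdet Φ w y).re : ℝ) : ℂ) +
        (((Real.log (gram g v y).det.re : ℝ) : ℂ) +
          (((- Real.log (‖(PM w fun α => v α x).det‖ ^ 2) : ℝ) : ℂ) +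
            (-1) * ((Φ y : ℝ) : ℂ))) := by
      intro y hy
      rw [hfor x hx y hy]
      push_cast
      ring
    rw [DDc hW v α β e1 hx, DDa hw hW hv α β (smR sm)
      ((smR sg).add (contDiffOn_const.add (contDiffOn_const.mul (smR hK.smP)))) hx,
      DDa hw hW hv α β (smR sg) (contDiffOn_const.add (contDiffOn_const.mul (smR hK.smP))) hx,
      DDa hw hW hv α β contDiffOn_const (contDiffOn_const.mul (smR hK.smP)) hx,
      DDk hW v α β _ hx, DDcm hw hW hv α β (-1) (smR hK.smP) hx, (hM hK x hx α β).1,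
      (hM hK x hx α β).2, (hG hK g hg hp x hx α β).2.2]
    ring

theorem hermi_sq {k : ℕ} (p : Cn k) (M : Matrix (Fin k) (Fin k) ℂ)
    (hM : ∀ α β, M α β = 2 * (p α * conj (p β))) (c : Cn k) :
    hermi M c c = ((2 * ‖∑ α, p α * c α‖ ^ 2 : ℝ) : ℂ) := by
  have h1 : hermi M c c = 2 * ((∑ α, p α * c α) * conj (∑ β, p β * c β)) := by
    unfold hermi
    rw [map_sum, Finset.sum_mul_sum, Finset.mul_sum]
    refine Finset.sum_congr rfl fun α _ => ?_
    rw [Finset.mul_sum]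
    refine Finset.sum_congr rfl fun β _ => ?_
    rw [hM, map_mul]
    ring
  rw [h1, Complex.mul_conj, Complex.normSq_eq_norm_sq]
  push_cast
  ring

theorem frb (hw : S_WIRT) (hT : S_TRP) (hE : S_KFE) (hB : S_KFB) (hM : S_LDM) (hG : S_LDG)
    (hP : S_PUE.{u}) (hS : S_ST1.{u}) (hQ : S_POSK.{u}) (hU : S_UGL.{u}) : S_FRB.{u} := by
  intro b k T G _ R H Φ g hF hflt
  have hTo : IsOpen T := hF.ket.et.isOpen
  obtain ⟨κ, hκ⟩ := hP T R hF.ket.et
  obtain ⟨u, hu1, hu2⟩ := hU hF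
  obtain ⟨F, hF1, hF2⟩ := hS hF κ hκ (fun y => u y ^ 2)
    ⟨hu1.1.pow 2, fun γ x y hxy => by
      change u y ^ 2 = u x ^ 2
      rw [hu1.2 γ x y hxy]⟩
  -- the computation in a frame
  have key : ∀ (W : Set (Cn (b + k))) (L : Cn (b + k) →ₗ[ℂ] Cn k) (w : Fin b → Cn (b + k))
      (v : Fin k → Cn (b + k) → Cn (b + k)), KFr Φ W L w v → W ⊆ T → ∀ x ∈ W,
      0 ≤ F x ∧ (F x = 0 → ∀ α, Dv (v α) (fun y => ((uf Φ g w v y : ℝ) : ℂ)) x = 0) := by
    intro W L w v hK hWT x hx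
    have hW := hK.isOpen
    have hv : ∀ α j, ContDiffOn ℝ ∞ (fun y => v α y j) W := fun α j =>
      contDiffOn_pi.mp (hK.smv α) j
    have su : ContDiffOn ℝ ∞ u W := hu1.1.mono hWT
    have hgW : ∀ i j, ContDiffOn ℝ ∞ (fun x => g x i j) W := fun i j => (hF.smg i j).mono hWT
    have hgp : ∀ x ∈ W, (g x).PosDef := fun x hx => hF.posg x (hWT hx)
    have hHW : ∀ i j, ContDiffOn ℝ ∞ (fun x => H x i j) W := fun i j =>
      (hF.ket.smooth i j).mono hWT
    have hHp : ∀ x ∈ W, (H x).PosDef := fun x hx => hF.ket.posDef x (hWT hx)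
    have hue : ∀ y ∈ W, ((u y : ℝ) : ℂ) = ((uf Φ g w v y : ℝ) : ℂ) := fun y hy => by
      rw [hu2 W L w v hK hWT y hy]
    obtain ⟨b1, b2, b3, b4, b5, b6⟩ := hB hK
    have c3 := (b6 H hHW).2 hHp x hx
    have d0 : ∀ α β, DD v α β (fun y => ((u y : ℝ) : ℂ)) x = 0 := by
      intro α β
      rw [DDc hW v α β hue hx, (ufd hw hB hM hG hK hgW hgp).2 x hx α β]
      obtain ⟨t1, t2⟩ := hflt W L w v hK hWT x hx
      rw [t1 α, zero_mul, Matrix.trace_zero]
      simp only [t2, mul_zero, Finset.sum_const_zero, sub_zero]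
    have hLF : ∀ α β, LF v (fun y => u y ^ 2) x α β =
        2 * (Dv (v α) (fun y => ((u y : ℝ) : ℂ)) x *
          conj (Dv (v β) (fun y => ((u y : ℝ) : ℂ)) x)) := fun α β =>
      DDsq hw hW hv α β su hx (d0 α β)
    have hh := hermi_sq (fun α => Dv (v α) (fun y => ((u y : ℝ) : ℂ)) x)
      (LF v (fun y => u y ^ 2) x) hLF
    obtain ⟨q1, q2, q3⟩ := hT (gram H v x) (LF v (fun y => u y ^ 2) x) c3.1 (by
      intro c
      rw [hh c]
      constructor
      · exact Complex.ofReal_im _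
      · rw [Complex.ofReal_re]
        positivity)
    have hd : 0 < dens Φ H w v x := by
      unfold dens
      refine div_pos (mul_pos (b1 x hx).2 c3.2.2) ?_
      exact pow_pos (norm_pos_iff.mpr (b3 x hx)) 2
    have hFx := hF2 W L w v hK hWT x hx
    refine ⟨by rw [hFx]; exact mul_nonneg hd.le q2, fun h0 α => ?_⟩
    rw [hFx] at h0
    have h1 := q3 ((mul_eq_zero.mp h0).resolve_left hd.ne')
    have h2 := hLF α α
    rw [h1, Matrix.zero_apply, Complex.mul_conj] at h2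
    have h3 : Complex.normSq (Dv (v α) (fun y => ((u y : ℝ) : ℂ)) x) = 0 := by
      have h4 : ((Complex.normSq (Dv (v α) (fun y => ((u y : ℝ) : ℂ)) x) : ℝ) : ℂ) = 0 := by
        have := h2.symm
        rcases mul_eq_zero.mp this with h | h
        · norm_num at h
        · exact h
      exact_mod_cast h4
    rw [← (Dvc hW (v α) hue hx).1]
    exact Complex.normSq_eq_zero.mp h3
  have hF0 : ∀ x ∈ T, F x = 0 := by
    refine hQ hF.ket.et κ hκ F hF1 fun x hx => ?_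
    obtain ⟨W', L, w, v, h1, h2, h3⟩ := hE T hTo Φ hF.smP hF.rank x hx
    exact (key W' L w v h3 h1 x h2).1
  intro W L w v hK hWT x hx α
  exact (key W L w v hK hWT x hx).2 (hF0 x (hWT hx)) α

end Pool.Agent.Helper94.RK
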