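import Pool.Agent.Helper36.RK.GoalsP

/-! # RK packet ALGP: linear algebra of a polarized complex structure -/

open Complex Matrix
open scoped ComplexConjugate ComplexOrder

namespace Pool.Agent.Helper94.RK

open Pool.Agent.Helper36.RK

section cj

variable {l m n : Type*}

theorem cj_mul [Fintype m] (A : Matrix l m ℂ) (B : Matrix m n ℂ) : cj (A * B) = cj A * cj B := by
  unfold cj
  exact Matrix.map_mul

theorem cj_cj (A : Matrix m n ℂ) : cj (cj A) = A := by
  ext i j
  simp [cj]

theorem cj_toC (Q : Matrix m n ℝ) : cj (toC Q) = toC Q := by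
  ext i j
  simp [cj, toC]

theorem cj_transpose (A : Matrix m n ℂ) : cj A.transpose = (cj A).transpose := rfl

theorem cj_smul (c : ℂ) (A : Matrix m n ℂ) : cj (c • A) = conj c • cj A := by
  ext i j
  simp [cj]

theorem cj_zero : cj (0 : Matrix m n ℂ) = 0 := by
  ext i j
  simp [cj]

theorem toC_mul [Fintype m] (A : Matrix l m ℝ) (B : Matrix m n ℝ) :
    toC (A * B) = toC A * toC B := by
  unfold toC
  exact Matrix.map_mul (f := Complex.ofRealHom)

theorem toC_one [DecidableEq m] : toC (1 : Matrix m m ℝ) = 1 := by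
  unfold toC
  exact Matrix.map_one _ Complex.ofReal_zero Complex.ofReal_one

end cj

theorem algp : S_ALGP := by
  intro k L Om hP
  obtain ⟨K, hK⟩ : ∃ K, K = hiM L Om := ⟨_, rfl⟩
  have hKpos : K.PosDef := by rw [hK]; exact hP.pos
  rw [← hK]
  have hKu : IsUnit K.det := (Matrix.isUnit_iff_isUnit_det K).1 hKpos.isUnit
  have hKK : K * K⁻¹ = 1 := Matrix.mul_nonsing_inv K hKu
  have hKK' : K⁻¹ * K = 1 := Matrix.nonsing_inv_mul K hKu
  have hcj : cj K = K.transpose := by
    have h1 : Kᴴ = K := hKpos.isHermitian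
    have h2 : cj K = Kᴴᵀ := by
      ext i j
      simp [cj, Matrix.conjTranspose_apply]
    rw [h2, h1]
  obtain ⟨W, hW⟩ : ∃ W, W = toC Om := ⟨_, rfl⟩
  have h2I : (2 * I : ℂ) ≠ 0 := by simp
  -- the four products
  have e1 : L * W * L.transpose = 0 := by rw [hW]; exact hP.iso
  have e2 : cj L * W * L.transpose = (2 * I) • K := by
    rw [hK, hW]
    unfold hiM
    rw [smul_smul, mul_one_div_cancel h2I, one_smul]
  have e3 : cj L * W * (cj L).transpose = 0 := by
    have h := congrArg cj e1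
    rw [cj_mul, cj_mul, cj_transpose, cj_zero, hW, cj_toC] at h
    rw [hW]
    exact h
  have e4 : L * W * (cj L).transpose = (-(2 * I)) • K.transpose := by
    have h := congrArg cj e2
    rw [cj_mul, cj_mul, cj_cj, cj_transpose, cj_smul, hcj, hW, cj_toC] at h
    have h2c : (starRingEnd ℂ) (2 : ℂ) = 2 := map_ofNat _ 2
    rw [hW, h, map_mul, h2c, Complex.conj_I, mul_neg]
  -- the block matrix
  obtain ⟨M, hM⟩ : ∃ M, M = Matrix.fromRows L (cj L) := ⟨_, rfl⟩
  obtain ⟨T, hT⟩ : ∃ T : Matrix (Fin k ⊕ Fin k) (Fin k ⊕ Fin k) ℂ,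
    T = Matrix.fromBlocks 0 ((1 / (2 * I) : ℂ) • K⁻¹) (-((1 / (2 * I) : ℂ) • (K⁻¹).transpose)) 0 :=
    ⟨_, rfl⟩
  have hMt : M.transpose = Matrix.fromCols L.transpose (cj L).transpose := by
    rw [hM, Matrix.transpose_fromRows]
  have hS : M * W * M.transpose =
      Matrix.fromBlocks 0 ((-(2 * I)) • K.transpose) ((2 * I) • K) 0 := by
    rw [hMt, hM, Matrix.fromRows_mul, Matrix.fromRows_mul_fromCols, e1, e2, e3, e4]
  have hST : M * W * M.transpose * T = 1 := by
    rw [hS, hT, Matrix.fromBlocks_multiply]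
    have f1 : (-(2 * I)) • K.transpose * -((1 / (2 * I) : ℂ) • (K⁻¹).transpose) = 1 := by
      rw [Matrix.mul_neg, Matrix.mul_smul, Matrix.smul_mul, smul_smul, ← Matrix.transpose_mul, hKK',
        Matrix.transpose_one, ← neg_smul]
      rw [show -(1 / (2 * I) * -(2 * I)) = (1 : ℂ) by field_simp, one_smul]
    have f2 : ((2 * I) • K) * ((1 / (2 * I) : ℂ) • K⁻¹) = 1 := by
      rw [Matrix.mul_smul, Matrix.smul_mul, smul_smul, hKK, one_div_mul_cancel h2I, one_smul]
    rw [f1, f2]
    simp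
  have hcomm : (W * M.transpose * T) * M = 1 := by
    have h1 : M * (W * M.transpose * T) = 1 := by
      rw [← hST]
      simp only [Matrix.mul_assoc]
    have e : Fin k ⊕ Fin k ≃ Fin (2 * k) :=
      finSumFinEquiv.trans (finCongr (by omega))
    exact (Matrix.mul_eq_one_comm_of_equiv e).1 h1
  have hWinv : W * (M.transpose * T * M) = 1 := by
    rw [← hcomm]
    simp only [Matrix.mul_assoc]
  have hdetW : W.det = ((Om.det : ℝ) : ℂ) := by
    rw [hW]
    exact (Complex.ofRealHom.map_det Om).symm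
  have hdet : Om.det ≠ 0 := by
    intro h0
    have h1 := congrArg Matrix.det hWinv
    rw [Matrix.det_mul, hdetW, h0, Matrix.det_one] at h1
    simp at h1
  have hOm : Om * Om⁻¹ = 1 := Matrix.mul_nonsing_inv Om (Ne.isUnit hdet)
  have hOm' : Om⁻¹ * Om = 1 := Matrix.nonsing_inv_mul Om (Ne.isUnit hdet)
  have hinv : toC Om⁻¹ = M.transpose * T * M := by
    have h1 : toC Om⁻¹ * W = 1 := by
      rw [hW, ← toC_mul, hOm', toC_one]
    calc toC Om⁻¹ = toC Om⁻¹ * (W * (M.transpose * T * M)) := by rw [hWinv, Matrix.mul_one]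
      _ = toC Om⁻¹ * W * (M.transpose * T * M) := (Matrix.mul_assoc _ _ _).symm
      _ = M.transpose * T * M := by rw [h1, Matrix.one_mul]
  have hform : M.transpose * T * M = (1 / (2 * I) : ℂ) • (L.transpose * K⁻¹ * cj L -
      (cj L).transpose * (K⁻¹).transpose * L) := by
    rw [hMt, hM, hT, Matrix.fromCols_mul_fromBlocks, Matrix.fromCols_mul_fromRows]
    simp only [Matrix.mul_zero, zero_add, add_zero, Matrix.mul_neg, Matrix.mul_smul,
      Matrix.neg_mul, Matrix.smul_mul]
    rw [smul_sub]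
    abel
  have h2 : toC Om⁻¹ = (1 / (2 * I) : ℂ) • (L.transpose * K⁻¹ * cj L -
      (cj L).transpose * (K⁻¹).transpose * L) := hinv.trans hform
  have hWi : W * toC Om⁻¹ = 1 := by rw [hinv]; exact hWinv
  refine ⟨hdet, h2, ?_, ?_, hKpos.inv, hKK, hKK'⟩
  · intro X hX
    rw [← hW] at hX
    refine ⟨-((1 / (2 * I) : ℂ) • (X * W * (cj L).transpose * (K⁻¹).transpose)), ?_⟩
    calc X = X * (W * toC Om⁻¹) := by rw [hWi, Matrix.mul_one]
      _ = X * W * toC Om⁻¹ := (Matrix.mul_assoc _ _ _).symm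
      _ = (1 / (2 * I) : ℂ) • (X * W * L.transpose * K⁻¹ * cj L -
          X * W * (cj L).transpose * (K⁻¹).transpose * L) := by
        rw [h2, Matrix.mul_smul, Matrix.mul_sub]
        simp only [Matrix.mul_assoc]
      _ = _ := by
        rw [hX, Matrix.zero_mul, Matrix.zero_mul, zero_sub, Matrix.neg_mul, Matrix.smul_mul,
          smul_neg]
  · intro x hx
    obtain ⟨y, hy⟩ : ∃ y : Fin (2 * k) → ℂ, y = fun j => (x j : ℂ) := ⟨_, rfl⟩
    rw [← hy] at hx
    have hcx : (cj L).mulVec y = 0 := by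
      have h1 : (cj L).mulVec y = star (L.mulVec y) := by
        funext i
        simp only [Matrix.mulVec, dotProduct, cj, Matrix.map_apply, Pi.star_apply, star_sum, star_mul',
          hy]
        refine Finset.sum_congr rfl fun j _ => ?_
        simp
      rw [h1, hx, star_zero]
    have h3 : (toC Om⁻¹).mulVec y = 0 := by
      rw [h2, Matrix.smul_mulVec, Matrix.sub_mulVec, ← Matrix.mulVec_mulVec,
        ← Matrix.mulVec_mulVec, ← Matrix.mulVec_mulVec, ← Matrix.mulVec_mulVec, hcx, hx]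
      simp
    have h4 : y = 0 := by
      calc y = (W * toC Om⁻¹).mulVec y := by rw [hWi, Matrix.one_mulVec]
        _ = W.mulVec ((toC Om⁻¹).mulVec y) := (Matrix.mulVec_mulVec _ _ _).symm
        _ = 0 := by rw [h3, Matrix.mulVec_zero]
    funext j
    have h5 := congrFun h4 j
    rw [hy] at h5
    simpa using h5

end Pool.Agent.Helper94.RK
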