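import Pool.Agent.Helper95.RK.GoalsB
import Pool.Agent.Helper83.SP.DER

/-! # RK packet COVB: the divergence of `B` vanishes -/

open Complex Metric Set Filter Topology MeasureTheory
open scoped ContDiff ComplexConjugate ComplexOrder Manifold Matrix

namespace Pool.Agent.Helper94.RK

open Pool.Agent.Helper95.Lin Pool.Agent.Helper16.Abund Pool.Agent.Helper92.Orb
  Pool.Agent.Helper10.SP Pool.Agent.Helper95.RK Pool.Agent.Helper83.SP

theorem covb (hw : S_WIRT) (hS : S_SMQ) : S_COVB := by
  intro b k W Q Φ hA x hx a p q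
  have hW := hA.isOpen
  obtain ⟨⟨sp, sg, -, -, sG, -, -, sB⟩, hS2⟩ := hS W Q Φ hA
  -- the commutation relation
  have cd2 : ∀ (i l : Fin k), ∀ y ∈ W, ∀ j m : Fin k,
      cd (Fin.natAdd b l) (cd (Fin.natAdd b i) (fun y => gq Q y j m)) y =
        ∑ n, (cd (Fin.natAdd b l) (fun y => chrM (gq Q) i y j n) y +
          (chrM (gq Q) i y * chrM (gq Q) l y) j n) * gq Q y n m := by
    intro i l y hy j m
    have h1 := (cd_congr hW (f := cd (Fin.natAdd b i) (fun y => gq Q y j m))
      (g := fun y => ∑ n, chrM (gq Q) i y j n * gq Q y n m)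
      (fun z hz => by rw [(hS2 z hz).2.2.1 i j m, Matrix.mul_apply]) (Fin.natAdd b l) hy).1
    rw [h1, (cd_sum_mul hw hW (fun n y => chrM (gq Q) i y j n) (fun n y => gq Q y n m)
      (fun n => sG i j n) (fun n => (sg n m).1) (Fin.natAdd b l) hy).1]
    have h2 : ∑ n, (chrM (gq Q) i y * chrM (gq Q) l y) j n * gq Q y n m =
        ∑ n, chrM (gq Q) i y j n * (chrM (gq Q) l y * gq Q y) n m := by
      rw [← Matrix.mul_apply, ← Matrix.mul_apply, Matrix.mul_assoc]
    simp only [add_mul, Finset.sum_add_distrib]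
    rw [h2, add_comm]
    congr 1
    · exact Finset.sum_congr rfl fun n _ => mul_comm _ _
    · exact Finset.sum_congr rfl fun n _ => by rw [(hS2 y hy).2.2.1 l n m]
  have hcom : ∀ (i l : Fin k), ∀ y ∈ W, ∀ j m : Fin k,
      cd (Fin.natAdd b l) (fun y => chrM (gq Q) i y j m) y +
        (chrM (gq Q) i y * chrM (gq Q) l y) j m =
      cd (Fin.natAdd b i) (fun y => chrM (gq Q) l y j m) y +
        (chrM (gq Q) l y * chrM (gq Q) i y) j m := by
    intro i l y hy j m
    let U : Matrix (Fin k) (Fin k) ℂ := Matrix.of fun j n =>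
      cd (Fin.natAdd b l) (fun y => chrM (gq Q) i y j n) y +
        (chrM (gq Q) i y * chrM (gq Q) l y) j n
    let V : Matrix (Fin k) (Fin k) ℂ := Matrix.of fun j n =>
      cd (Fin.natAdd b i) (fun y => chrM (gq Q) l y j n) y +
        (chrM (gq Q) l y * chrM (gq Q) i y) j n
    have hUV : U * gq Q y = V * gq Q y := by
      ext j n
      rw [Matrix.mul_apply, Matrix.mul_apply]
      have e1 := cd2 i l y hy j n
      have e2 := cd2 l i y hy j n
      have e3 := ((hw W hW _ _ (sg j n).1 (sg j n).1).2.2.2.2.1 (Fin.natAdd b l)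
        (Fin.natAdd b i) y hy).1
      rw [e1, e2] at e3
      exact e3
    have hu : IsUnit (gq Q y) := (sp y hy).1.isUnit
    have h3 : U = V := hu.mul_right_cancel hUV
    exact congrFun (congrFun h3 j) m
  -- apply the derivative along the conjugate of the base vector
  have hmul : ∀ (i l j m : Fin k), ∀ y ∈ W,
      cdb (Fin.castAdd k a) (fun y => (chrM (gq Q) i y * chrM (gq Q) l y) j m) y =
        (BBq Q a i y * chrM (gq Q) l y) j m + (chrM (gq Q) i y * BBq Q a l y) j m := by
    intro i l j m y hy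
    have h1 : (fun y => (chrM (gq Q) i y * chrM (gq Q) l y) j m) =
        fun y => ∑ n, chrM (gq Q) i y j n * chrM (gq Q) l y n m := by
      funext z
      rw [Matrix.mul_apply]
    rw [h1, (cd_sum_mul hw hW (fun n y => chrM (gq Q) i y j n) (fun n y => chrM (gq Q) l y n m)
      (fun n => sG i j n) (fun n => sG l n m) (Fin.castAdd k a) hy).2, Finset.sum_add_distrib,
      add_comm, Matrix.mul_apply, Matrix.mul_apply]
    congr 1
    exact Finset.sum_congr rfl fun n _ => mul_comm _ _
  have smul : ∀ (i l j m : Fin k),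
      ContDiffOn ℝ ∞ (fun y => (chrM (gq Q) i y * chrM (gq Q) l y) j m) W := by
    intro i l j m
    simp only [Matrix.mul_apply]
    exact ContDiffOn.sum fun n _ => (sG i j n).mul (sG l n m)
  have scd : ∀ (i l j m : Fin k),
      ContDiffOn ℝ ∞ (cd (Fin.natAdd b l) (fun y => chrM (gq Q) i y j m)) W := fun i l j m =>
    ((hw W hW _ _ (sG i j m) (sG i j m)).1 (Fin.natAdd b l)).1
  have hL : ∀ (i l j m : Fin k),
      cdb (Fin.castAdd k a) (fun y => cd (Fin.natAdd b l) (fun y => chrM (gq Q) i y j m) y +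
        (chrM (gq Q) i y * chrM (gq Q) l y) j m) x =
      cd (Fin.natAdd b l) (fun y => BBq Q a i y j m) x +
        ((BBq Q a i x * chrM (gq Q) l x) j m + (chrM (gq Q) i x * BBq Q a l x) j m) := by
    intro i l j m
    rw [((hw W hW (cd (Fin.natAdd b l) (fun y => chrM (gq Q) i y j m)) _ (scd i l j m)
      (smul i l j m)).2.1 (Fin.castAdd k a) x hx).2, hmul i l j m x hx,
      ← ((hw W hW _ _ (sG i j m) (sG i j m)).2.2.2.2.1 (Fin.natAdd b l)
        (Fin.castAdd k a) x hx).2.2]
    rfl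
  have hB : ∀ (i l j m : Fin k),
      cd (Fin.natAdd b l) (fun y => BBq Q a i y j m) x +
        ((BBq Q a i x * chrM (gq Q) l x) j m + (chrM (gq Q) i x * BBq Q a l x) j m) =
      cd (Fin.natAdd b i) (fun y => BBq Q a l y j m) x +
        ((BBq Q a l x * chrM (gq Q) i x) j m + (chrM (gq Q) l x * BBq Q a i x) j m) := by
    intro i l j m
    rw [← hL i l j m, ← hL l i j m]
    exact (cd_congr hW (fun y hy => hcom i l y hy j m) (Fin.castAdd k a) hx).2
  have symG : ∀ i j m : Fin k, chrM (gq Q) i x j m = chrM (gq Q) j x i m := fun i j m =>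
    ((hS2 x hx).2.2.2.1 i j i m).2
  have symB : ∀ y ∈ W, ∀ i j m : Fin k, BBq Q a i y j m = BBq Q a j y i m := fun y hy i j m =>
    ((hS2 y hy).2.2.2.2.2 a i j i m).2
  let D : Fin k → Fin k → Fin k → Fin k → ℂ := fun l p q m =>
    cd (Fin.natAdd b l) (fun y => BBq Q a p y q m) x - (chrM (gq Q) l x * BBq Q a p x) q m +
      (BBq Q a p x * chrM (gq Q) l x) q m - ∑ n, chrM (gq Q) l x p n * BBq Q a n x q m
  have D1 : ∀ l p q m, D l p q m = D p l q m := by
    intro l p q m
    have h1 := hB p l q m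
    have h2 : ∑ n, chrM (gq Q) l x p n * BBq Q a n x q m =
        ∑ n, chrM (gq Q) p x l n * BBq Q a n x q m :=
      Finset.sum_congr rfl fun n _ => by rw [symG l p n]
    change cd (Fin.natAdd b l) (fun y => BBq Q a p y q m) x - (chrM (gq Q) l x * BBq Q a p x) q m +
      (BBq Q a p x * chrM (gq Q) l x) q m - ∑ n, chrM (gq Q) l x p n * BBq Q a n x q m =
      cd (Fin.natAdd b p) (fun y => BBq Q a l y q m) x - (chrM (gq Q) p x * BBq Q a l x) q m +
      (BBq Q a l x * chrM (gq Q) p x) q m - ∑ n, chrM (gq Q) p x l n * BBq Q a n x q m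
    rw [h2]
    linear_combination h1
  have D2 : ∀ l p q m, D l p q m = D l q p m := by
    intro l p q m
    have h1 : cd (Fin.natAdd b l) (fun y => BBq Q a p y q m) x =
        cd (Fin.natAdd b l) (fun y => BBq Q a q y p m) x :=
      (cd_congr hW (fun y hy => symB y hy p q m) (Fin.natAdd b l) hx).1
    have h2 : (BBq Q a p x * chrM (gq Q) l x) q m = (BBq Q a q x * chrM (gq Q) l x) p m := by
      rw [Matrix.mul_apply, Matrix.mul_apply]
      exact Finset.sum_congr rfl fun n _ => by rw [symB x hx p q n]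
    have h3 : (chrM (gq Q) l x * BBq Q a p x) q m =
        ∑ n, chrM (gq Q) l x q n * BBq Q a n x p m := by
      rw [Matrix.mul_apply]
      exact Finset.sum_congr rfl fun n _ => by rw [symB x hx p n m]
    have h4 : (chrM (gq Q) l x * BBq Q a q x) p m =
        ∑ n, chrM (gq Q) l x p n * BBq Q a n x q m := by
      rw [Matrix.mul_apply]
      exact Finset.sum_congr rfl fun n _ => by rw [symB x hx q n m]
    change cd (Fin.natAdd b l) (fun y => BBq Q a p y q m) x - (chrM (gq Q) l x * BBq Q a p x) q m +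
      (BBq Q a p x * chrM (gq Q) l x) q m - ∑ n, chrM (gq Q) l x p n * BBq Q a n x q m =
      cd (Fin.natAdd b l) (fun y => BBq Q a q y p m) x - (chrM (gq Q) l x * BBq Q a q x) p m +
      (BBq Q a q x * chrM (gq Q) l x) p m - ∑ n, chrM (gq Q) l x q n * BBq Q a n x p m
    rw [h1, h2, h3, h4]
    ring
  change ∑ l, D l p q l = 0
  have h5 : ∑ l, D l p q l = ∑ l, D p q l l :=
    Finset.sum_congr rfl fun l _ => by rw [D1 l p q l, D2 p l q l]
  rw [h5]
  change ∑ l, (cd (Fin.natAdd b p) (fun y => BBq Q a q y l l) x -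
      (chrM (gq Q) p x * BBq Q a q x) l l +
      (BBq Q a q x * chrM (gq Q) p x) l l - ∑ n, chrM (gq Q) p x q n * BBq Q a n x l l) = 0
  simp only [Finset.sum_sub_distrib, Finset.sum_add_distrib]
  have t1 : ∑ l, cd (Fin.natAdd b p) (fun y => BBq Q a q y l l) x = 0 := by
    have e1 := (cd_sum hw hW Finset.univ (fun l y => BBq Q a q y l l) (fun l _ => sB a q l l)
      (Fin.natAdd b p) hx).1
    have e2 := (cd_congr hW (f := fun y => ∑ l, BBq Q a q y l l) (g := fun _ => 0)
        (fun y hy => (hS2 y hy).2.2.2.2.1 a q) (Fin.natAdd b p) hx).1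
    rw [← e1, e2, (cd_const 0 (Fin.natAdd b p) x).1]
  have t2 : ∑ l, (chrM (gq Q) p x * BBq Q a q x) l l = ∑ l, (BBq Q a q x * chrM (gq Q) p x) l l :=
    Matrix.trace_mul_comm (chrM (gq Q) p x) (BBq Q a q x)
  have t3 : ∑ l, ∑ n, chrM (gq Q) p x q n * BBq Q a n x l l = 0 := by
    rw [Finset.sum_comm]
    refine Finset.sum_eq_zero fun n _ => ?_
    rw [← Finset.mul_sum]
    have : ∑ l, BBq Q a n x l l = 0 := (hS2 x hx).2.2.2.2.1 a n
    rw [this, mul_zero]
  rw [t1, t2, t3]
  ring

end Pool.Agent.Helper94.RK
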